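import Pool.Agent.helper35.MR.SpecB

/-!
# mr: REGB (helper77)
-/

set_option autoImplicit false

open Finset

namespace Pool.Agent.helper35.MR

open Pool.Agent.RRank

section REGBaux

variable {X Y Z W K : Type} [Field K]

theorem REGB_slx {r R : ℕ} {S : X → Y → Z → W → K} (hS : Sl r S) (f : Fin R → X → K)
    (f' : Fin R → Y → Z → W → K) :
    Sl (r + R) (fun x y z w => S x y z w + ∑ n, f n x * f' n y z w) := by
  obtain ⟨a, a', b, b', c, c', d, d', h⟩ := hS
  refine ⟨Fin.append a f, Fin.append a' f', Fin.append b (fun _ _ => 0), Fin.append b' (fun _ _ _ _ => 0),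
    Fin.append c (fun _ _ => 0), Fin.append c' (fun _ _ _ _ => 0), Fin.append d (fun _ _ => 0),
    Fin.append d' (fun _ _ _ _ => 0), ?_⟩
  intro x y z w
  show S x y z w + ∑ n, f n x * f' n y z w = _
  rw [h]
  simp only [slSum, Fin.sum_univ_add, Fin.append_left, Fin.append_right, mul_zero, Finset.sum_const_zero,
    add_zero]
  ring

theorem REGB_sly {r R : ℕ} {S : X → Y → Z → W → K} (hS : Sl r S) (f : Fin R → Y → K)
    (f' : Fin R → X → Z → W → K) :
    Sl (r + R) (fun x y z w => S x y z w + ∑ n, f n y * f' n x z w) := by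
  obtain ⟨a, a', b, b', c, c', d, d', h⟩ := hS
  refine ⟨Fin.append a (fun _ _ => 0), Fin.append a' (fun _ _ _ _ => 0), Fin.append b f, Fin.append b' f',
    Fin.append c (fun _ _ => 0), Fin.append c' (fun _ _ _ _ => 0), Fin.append d (fun _ _ => 0),
    Fin.append d' (fun _ _ _ _ => 0), ?_⟩
  intro x y z w
  show S x y z w + ∑ n, f n y * f' n x z w = _
  rw [h]
  simp only [slSum, Fin.sum_univ_add, Fin.append_left, Fin.append_right, mul_zero, Finset.sum_const_zero,
    add_zero]
  ring

theorem REGB_slz {r R : ℕ} {S : X → Y → Z → W → K} (hS : Sl r S) (f : Fin R → Z → K)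
    (f' : Fin R → X → Y → W → K) :
    Sl (r + R) (fun x y z w => S x y z w + ∑ n, f n z * f' n x y w) := by
  obtain ⟨a, a', b, b', c, c', d, d', h⟩ := hS
  refine ⟨Fin.append a (fun _ _ => 0), Fin.append a' (fun _ _ _ _ => 0), Fin.append b (fun _ _ => 0),
    Fin.append b' (fun _ _ _ _ => 0), Fin.append c f, Fin.append c' f', Fin.append d (fun _ _ => 0),
    Fin.append d' (fun _ _ _ _ => 0), ?_⟩
  intro x y z w
  show S x y z w + ∑ n, f n z * f' n x y w = _
  rw [h]
  simp only [slSum, Fin.sum_univ_add, Fin.append_left, Fin.append_right, mul_zero, Finset.sum_const_zero,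
    add_zero]
  ring

theorem REGB_prT {X Y Z W : Type} {a b : ℕ} (t : Fin a → Fin b → K) (A : Fin a → X → Y → K) (B : Fin b → Z → W → K)
    (x : X) (y : Y) (z : Z) (w : W) :
    pr t A B x y z w = pr (fun q p => t p q) B A z w x y := by
  unfold pr
  rw [Finset.sum_comm]
  refine Finset.sum_congr rfl fun q _ => Finset.sum_congr rfl fun p _ => ?_
  ring

/-- a family which is not regular has a nonzero combination of small rank, in particular it is not empty -/
theorem REGB_nreg {a R : ℕ} {A : Fin a → X → Y → K} (h : ¬ Reg R A) :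
    ∃ a', ∃ e : a = a' + 1, ∃ c : Fin (a' + 1) → K, c ≠ 0 ∧
      LR R (fun x y => ∑ p, c p * (fun p => A (Fin.cast e.symm p)) p x y) := by
  unfold Reg at h
  push Not at h
  obtain ⟨c, hc, hL⟩ := h
  obtain _ | a' := a
  · exact absurd (Subsingleton.elim c 0) hc
  · exact ⟨a', rfl, c, hc, hL⟩

end REGBaux

theorem REGB (hRED : RED_stmt) : REGB_stmt := by
  intro ρ N
  induction N with
  | zero =>
    intro r₀
    refine ⟨r₀, ?_⟩
    intro K X Y Z W _ T a b c d e f hN hD
    have ha : a = 0 := by omega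
    have hb : b = 0 := by omega
    have hc : c = 0 := by omega
    have hd : d = 0 := by omega
    have he : e = 0 := by omega
    have hf : f = 0 := by omega
    subst ha hb hc hd he hf
    obtain ⟨S, t, u, v, A, B, C, D, E, F, hS, hT⟩ := hD
    refine ⟨r₀, 0, 0, 0, 0, 0, 0, le_rfl, by omega, S, t, u, v, A, B, C, D, E, F, hS, hT, ?_, ?_, ?_, ?_, ?_, ?_⟩ <;>
    · intro c hc
      exact absurd (Subsingleton.elim c 0) hc
  | succ N ih =>
    intro r₀
    obtain ⟨r₁, h₁⟩ := ih (r₀ + ρ r₀)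
    refine ⟨max r₀ r₁, ?_⟩
    intro K X Y Z W _ T a b c d e f hN hD
    obtain ⟨S, t, u, v, A, B, C, D, E, F, hS, hT⟩ := hD
    have key : ∀ a b c d e f : ℕ, a + b + c + d + e + f ≤ N → Dec (r₀ + ρ r₀) a b c d e f T →
        ∃ r a b c d e f : ℕ, r ≤ max r₀ r₁ ∧ a + b + c + d + e + f ≤ N + 1 ∧
          DecReg (ρ r) r a b c d e f T := by
      intro a b c d e f hN hD
      obtain ⟨r, a, b, c, d, e, f, hr, hs, hDR⟩ := h₁ K X Y Z W T a b c d e f hN hD
      exact ⟨r, a, b, c, d, e, f, le_trans hr (le_max_right _ _), by omega, hDR⟩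
    by_cases hA : Reg (ρ r₀) A
    swap
    · obtain ⟨a', ea, γ, hγ, hL⟩ := REGB_nreg hA
      subst ea
      obtain ⟨t', A', g, g', hg⟩ := hRED K X Y Z W a' b (ρ r₀) t A B γ hγ hL
      refine key a' b c d e f (by omega) ⟨_, t', u, v, A', B, C, D, E, F, REGB_slx hS g g', ?_⟩
      intro x y z w
      rw [hT, hg]
      ring
    by_cases hB : Reg (ρ r₀) B
    swap
    · obtain ⟨b', eb, γ, hγ, hL⟩ := REGB_nreg hB
      subst eb
      obtain ⟨t', B', g, g', hg⟩ := hRED K Z W X Y b' a (ρ r₀) (fun q p => t p q) B A γ hγ hL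
      refine key a b' c d e f (by omega) ⟨_, (fun p q => t' q p), u, v, A, B', C, D, E, F,
        REGB_slz hS g (fun n x y w => g' n w x y), ?_⟩
      intro x y z w
      rw [hT, REGB_prT t, hg, REGB_prT (fun p q => t' q p)]
      ring
    by_cases hC : Reg (ρ r₀) C
    swap
    · obtain ⟨c', ec, γ, hγ, hL⟩ := REGB_nreg hC
      subst ec
      obtain ⟨t', C', g, g', hg⟩ := hRED K X Z Y W c' d (ρ r₀) u C D γ hγ hL
      refine key a b c' d e f (by omega) ⟨_, t, t', v, A, B, C', D, E, F,
        REGB_slx hS g (fun n y z w => g' n z y w), ?_⟩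
      intro x y z w
      rw [hT, hg]
      ring
    by_cases hD : Reg (ρ r₀) D
    swap
    · obtain ⟨d', ed, γ, hγ, hL⟩ := REGB_nreg hD
      subst ed
      obtain ⟨t', D', g, g', hg⟩ := hRED K Y W X Z d' c (ρ r₀) (fun q p => u p q) D C γ hγ hL
      refine key a b c d' e f (by omega) ⟨_, t, (fun p q => t' q p), v, A, B, C, D', E, F,
        REGB_sly hS g (fun n x z w => g' n w x z), ?_⟩
      intro x y z w
      rw [hT, REGB_prT u, hg, REGB_prT (fun p q => t' q p)]
      ring
    by_cases hE : Reg (ρ r₀) E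
    swap
    · obtain ⟨e', ee, γ, hγ, hL⟩ := REGB_nreg hE
      subst ee
      obtain ⟨t', E', g, g', hg⟩ := hRED K X W Y Z e' f (ρ r₀) v E F γ hγ hL
      refine key a b c d e' f (by omega) ⟨_, t, u, t', A, B, C, D, E', F,
        REGB_slx hS g (fun n y z w => g' n w y z), ?_⟩
      intro x y z w
      rw [hT, hg]
      ring
    by_cases hF : Reg (ρ r₀) F
    swap
    · obtain ⟨f', ef, γ, hγ, hL⟩ := REGB_nreg hF
      subst ef
      obtain ⟨t', F', g, g', hg⟩ := hRED K Y Z X W f' e (ρ r₀) (fun q p => v p q) F E γ hγ hL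
      refine key a b c d e f' (by omega) ⟨_, t, u, (fun p q => t' q p), A, B, C, D, E, F',
        REGB_sly hS g (fun n x z w => g' n z x w), ?_⟩
      intro x y z w
      rw [hT, REGB_prT v, hg, REGB_prT (fun p q => t' q p)]
      ring
    exact ⟨r₀, a, b, c, d, e, f, le_max_left _ _, hN, S, t, u, v, A, B, C, D, E, F, hS, hT, hA, hB, hC, hD,
      hE, hF⟩

end Pool.Agent.helper35.MR
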